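import Pool.Agent.helper36.UT.Spec

set_option autoImplicit false

open Filter Polynomial FirstOrder FirstOrder.Language

namespace Pool.Agent.UnivT

theorem GRI_far_trans {x y z : ℚ × (ℕ → ℤ)} (h1 : Far x y) (h2 : Far y z) : Far x z := by
  unfold Far at *
  rw [tendsto_atTop] at *
  intro b
  filter_upwards [h1 b, h2 0] with H h3 h4
  linarith

theorem GRI_ne (hDOM : DOM_stmt) (x : ℚ × (ℕ → ℤ)) (l : List (ℚ × (ℕ → ℤ))) (hx : x.1 ≠ 0) (hl : ∀ y ∈ l, Far x y) :
    ∀ᶠ H : ℕ in atTop, x.1 * (2 : ℚ) ^ (x.2 H) + ev l H ≠ 0 := by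
  have hx0 : 0 < |x.1| := abs_pos.2 hx
  filter_upwards [hDOM x l hl (|x.1| / 2) (by linarith)] with H hH h0
  have hp : (0 : ℚ) < (2 : ℚ) ^ (x.2 H) := by positivity
  have h1 : ev l H = -(x.1 * (2 : ℚ) ^ (x.2 H)) := by linarith
  rw [h1, abs_neg, abs_mul, abs_of_pos hp] at hH
  nlinarith [mul_pos hx0 hp]

theorem GRI_split (l : List (ℚ × (ℕ → ℤ))) (P : ℚ × (ℕ → ℤ) → Bool) (H : ℕ) :
    ev (l.filter P) H + ev (l.filter fun x => !P x) H = ev l H := by
  induction l with
  | nil => simp [ev]
  | cons x l ih =>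
    by_cases hP : P x = true
    · rw [List.filter_cons_of_pos hP, List.filter_cons_of_neg (by simp [hP]), ev_cons, ev_cons, ← ih]
      ring
    · rw [List.filter_cons_of_neg hP, List.filter_cons_of_pos (by simp [hP]), ev_cons, ev_cons, ← ih]
      ring

theorem GRI (hLGD : LGD_stmt) (hNRM : NRM_stmt) (hDOM : DOM_stmt) : GRI_stmt := by
  intro k φ hφ l hl h0 μ
  have hG := hLGD k
  obtain ⟨n1, hn1, hm1, he1⟩ := hNRM (Lev k) hG (l.filter fun x => decide (ph φ x = μ)) (fun x hx => hl x (List.mem_of_mem_filter hx))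
  obtain ⟨n2, hn2, hm2, he2⟩ := hNRM (Lev k) hG (l.filter fun x => !decide (ph φ x = μ)) (fun x hx => hl x (List.mem_of_mem_filter hx))
  have hp1 : ∀ z ∈ n1, ph φ z = μ ∧ Lev k z.2 := by
    intro z hz
    obtain ⟨y, hy, hzy⟩ := hm1 z hz
    rw [List.mem_filter] at hy
    refine ⟨?_, by rw [hzy]; exact hl y hy.1⟩
    have h1 : ph φ z = ph φ y := by
      unfold ph
      rw [hzy]
    rw [h1]
    exact of_decide_eq_true hy.2
  have hp2 : ∀ z ∈ n2, ph φ z ≠ μ ∧ Lev k z.2 := by
    intro z hz
    obtain ⟨y, hy, hzy⟩ := hm2 z hz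
    rw [List.mem_filter] at hy
    refine ⟨?_, by rw [hzy]; exact hl y hy.1⟩
    have h1 : ph φ z = ph φ y := by
      unfold ph
      rw [hzy]
    rw [h1]
    have h2 := hy.2
    simp only [Bool.not_eq_true', decide_eq_false_iff_not] at h2
    exact h2
  have hsum : ∀ᶠ H : ℕ in atTop, ev n1 H + ev n2 H = 0 := by
    filter_upwards [h0, he1, he2] with H g0 g1 g2
    rw [← g1, ← g2, GRI_split, g0]
  cases n1 with
  | nil =>
    filter_upwards [he1] with H g1
    rw [g1]
    exact ev_nil H
  | cons x m1 =>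
    exfalso
    obtain ⟨hpw1, hc1⟩ := hn1
    rw [List.pairwise_cons] at hpw1
    have hx1 : x.1 ≠ 0 := hc1 x List.mem_cons_self
    cases n2 with
    | nil =>
      have h1 := GRI_ne hDOM x m1 hx1 hpw1.1
      obtain ⟨H, g1, g2⟩ := (hsum.and h1).exists
      apply g2
      rw [ev_cons, ev_nil, add_zero] at g1
      exact g1
    | cons y m2 =>
      obtain ⟨hpw2, hc2⟩ := hn2
      rw [List.pairwise_cons] at hpw2
      have hy1 : y.1 ≠ 0 := hc2 y List.mem_cons_self
      obtain ⟨hxμ, hxL⟩ := hp1 x List.mem_cons_self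
      obtain ⟨hyμ, hyL⟩ := hp2 y List.mem_cons_self
      rcases hG.2.2.2 _ (hG.2.1 x.2 y.2 hxL hyL) with ⟨c, hc⟩ | ht | ht
      · apply hyμ
        rw [← hxμ]
        have h1 : φ (fun H => ((x.2 H - y.2 H : ℤ) : ℚ)) = 0 := by
          apply hφ _ (c : ℚ)
          filter_upwards [hc] with H g
          rw [g]
        have h2 : (fun H => ((x.2 H - y.2 H : ℤ) : ℚ)) = (fun H => (x.2 H : ℚ)) - fun H => (y.2 H : ℚ) := by
          funext H
          simp
        rw [h2, map_sub, sub_eq_zero] at h1
        exact h1.symm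
      · have hxy : Far x y := ht
        have h1 := GRI_ne hDOM x (m1 ++ y :: m2) hx1 (by
          intro z hz
          rw [List.mem_append] at hz
          rcases hz with hz | hz
          · exact hpw1.1 z hz
          · rw [List.mem_cons] at hz
            rcases hz with rfl | hz
            · exact hxy
            · exact GRI_far_trans hxy (hpw2.1 z hz))
        obtain ⟨H, g1, g2⟩ := (hsum.and h1).exists
        apply g2
        rw [ev_append]
        rw [ev_cons] at g1
        linarith
      · have hyx : Far y x := by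
          show Tendsto (fun H => y.2 H - x.2 H) atTop atTop
          have h1 := tendsto_neg_atBot_atTop.comp ht
          refine h1.congr fun H => ?_
          simp
        have h1 := GRI_ne hDOM y (m2 ++ x :: m1) hy1 (by
          intro z hz
          rw [List.mem_append] at hz
          rcases hz with hz | hz
          · exact hpw2.1 z hz
          · rw [List.mem_cons] at hz
            rcases hz with rfl | hz
            · exact hyx
            · exact GRI_far_trans hyx (hpw1.1 z hz))
        obtain ⟨H, g1, g2⟩ := (hsum.and h1).exists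
        apply g2
        rw [ev_append]
        rw [ev_cons y m2] at g1
        linarith

end Pool.Agent.UnivT
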