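import Pool.Agent.helper36.UT.Spec

set_option autoImplicit false

open Filter Polynomial FirstOrder FirstOrder.Language

namespace Pool.Agent.UnivT

theorem GRM_ne (hDOM : DOM_stmt) (l : List (ℚ × (ℕ → ℤ))) (hl : NF l) (hne : l ≠ []) : ∀ᶠ H : ℕ in atTop, ev l H ≠ 0 := by
  cases l with
  | nil => exact absurd rfl hne
  | cons x m =>
    obtain ⟨hpw, hc⟩ := hl
    rw [List.pairwise_cons] at hpw
    have hx0 : 0 < |x.1| := abs_pos.2 (hc x List.mem_cons_self)
    filter_upwards [hDOM x m hpw.1 (|x.1| / 2) (by linarith)] with H hH h0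
    have hp : (0 : ℚ) < (2 : ℚ) ^ (x.2 H) := by positivity
    rw [ev_cons] at h0
    have h1 : ev m H = -(x.1 * (2 : ℚ) ^ (x.2 H)) := by linarith
    rw [h1, abs_neg, abs_mul, abs_of_pos hp] at hH
    nlinarith [mul_pos hx0 hp]

theorem GRM_ph_add (φ : (ℕ → ℚ) →ₗ[ℚ] ℚ) (x y : ℚ × (ℕ → ℤ)) :
    ph φ (x.1 * y.1, fun H => x.2 H + y.2 H) = ph φ x + ph φ y := by
  unfold ph
  rw [← map_add]
  apply congrArg
  funext H
  simp

theorem GRM_filter (φ : (ℕ → ℚ) →ₗ[ℚ] ℚ) (l1 l2 : List (ℚ × (ℕ → ℤ))) (M1 M2 : ℚ)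
    (h1 : ∀ x ∈ l1, ph φ x ≤ M1) (h2 : ∀ x ∈ l2, ph φ x ≤ M2) :
    (mulL l1 l2).filter (fun x => decide (ph φ x = M1 + M2)) =
      mulL (l1.filter fun x => decide (ph φ x = M1)) (l2.filter fun x => decide (ph φ x = M2)) := by
  induction l1 with
  | nil => rfl
  | cons x l ih =>
    have e1 : mulL (x :: l) l2 = (l2.map fun y => (x.1 * y.1, fun H => x.2 H + y.2 H)) ++ mulL l l2 := by
      simp [mulL]
    rw [e1, List.filter_append, ih (fun y hy => h1 y (List.mem_cons_of_mem _ hy)), List.filter_map]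
    by_cases hx : ph φ x = M1
    · rw [List.filter_cons_of_pos (by simp [hx])]
      have e2 : ∀ m : List (ℚ × (ℕ → ℤ)), mulL (x :: (l.filter fun x => decide (ph φ x = M1))) m =
          (m.map fun y => (x.1 * y.1, fun H => x.2 H + y.2 H)) ++ mulL (l.filter fun x => decide (ph φ x = M1)) m := by
        intro m
        simp [mulL]
      rw [e2]
      apply congrArg (fun t => t ++ _)
      apply congrArg
      apply List.filter_congr
      intro y _
      show decide (ph φ (x.1 * y.1, fun H => x.2 H + y.2 H) = M1 + M2) = decide (ph φ y = M2)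
      rw [GRM_ph_add, hx]
      simp
    · rw [List.filter_cons_of_neg (by simp [hx])]
      have e3 : l2.filter ((fun x => decide (ph φ x = M1 + M2)) ∘ fun y => (x.1 * y.1, fun H => x.2 H + y.2 H)) = [] := by
        rw [List.filter_eq_nil_iff]
        intro y hy
        show ¬ decide (ph φ (x.1 * y.1, fun H => x.2 H + y.2 H) = M1 + M2) = true
        rw [GRM_ph_add, decide_eq_true_eq]
        have h3 := h1 x List.mem_cons_self
        have h4 := h2 y hy
        intro h5
        apply hx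
        linarith
      rw [e3, List.map_nil, List.nil_append]

theorem GRM_neg (l : List (ℚ × (ℕ → ℤ))) (H : ℕ) : ev (l.map fun z => (-z.1, z.2)) H = -ev l H := by
  induction l with
  | nil => simp [ev]
  | cons x l ih =>
    rw [List.map_cons, ev_cons, ev_cons, ih]
    ring

theorem GRM (hLGD : LGD_stmt) (hDOM : DOM_stmt) (hGRI : GRI_stmt) : GRM_stmt := by
  intro k φ hφ l1 l2 l3 hl1 hl2 hl3 hn1 hn2 heq M1 M2 hM1 hM1' hM2 hM2'
  by_contra hcon
  push Not at hcon
  have hG := hLGD k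
  have hadd : ∀ f g : ℕ → ℤ, Lev k f → Lev k g → Lev k fun H => f H + g H := by
    intro f g hf hg
    have h1 := hG.2.1 _ _ hf (hG.2.1 _ _ (hG.1 0) hg)
    have e : (fun H => f H + g H) = fun H => f H - (0 - g H) := by
      funext H
      ring
    rw [e]
    exact h1
  have hLev : ∀ x ∈ mulL l1 l2 ++ l3.map (fun z => (-z.1, z.2)), Lev k x.2 := by
    intro x hx
    rw [List.mem_append] at hx
    rcases hx with hx | hx
    · unfold mulL at hx
      rw [List.mem_flatMap] at hx
      obtain ⟨a, ha, hx⟩ := hx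
      rw [List.mem_map] at hx
      obtain ⟨b, hb, rfl⟩ := hx
      exact hadd _ _ (hl1 a ha) (hl2 b hb)
    · rw [List.mem_map] at hx
      obtain ⟨z, hz, rfl⟩ := hx
      exact hl3 z hz
  have hzero : ∀ᶠ H : ℕ in atTop, ev (mulL l1 l2 ++ l3.map (fun z => (-z.1, z.2))) H = 0 := by
    filter_upwards [heq] with H g
    rw [ev_append, ev_mulL, GRM_neg, g]
    ring
  have h1 := hGRI k φ hφ _ hLev hzero (M1 + M2)
  have e1 : (l3.map (fun z => (-z.1, z.2))).filter (fun x => decide (ph φ x = M1 + M2)) = [] := by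
    rw [List.filter_eq_nil_iff]
    intro y hy
    rw [List.mem_map] at hy
    obtain ⟨z, hz, rfl⟩ := hy
    rw [decide_eq_true_eq]
    exact hcon z hz
  rw [List.filter_append, e1, List.append_nil, GRM_filter φ l1 l2 M1 M2 hM1 hM2] at h1
  have hnf : ∀ (l : List (ℚ × (ℕ → ℤ))) (M : ℚ), NF l → NF (l.filter fun x => decide (ph φ x = M)) := by
    intro l M hl
    exact ⟨hl.1.filter _, fun x hx => hl.2 x (List.mem_of_mem_filter hx)⟩
  have hne : ∀ (l : List (ℚ × (ℕ → ℤ))) (M : ℚ), (∃ x ∈ l, ph φ x = M) → (l.filter fun x => decide (ph φ x = M)) ≠ [] := by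
    intro l M hl h0
    obtain ⟨x, hx, hxM⟩ := hl
    have : x ∈ l.filter fun x => decide (ph φ x = M) := List.mem_filter.2 ⟨hx, by simp [hxM]⟩
    rw [h0] at this
    exact absurd this List.not_mem_nil
  have g1 := GRM_ne hDOM _ (hnf l1 M1 hn1) (hne l1 M1 hM1')
  have g2 := GRM_ne hDOM _ (hnf l2 M2 hn2) (hne l2 M2 hM2')
  obtain ⟨H, q1, q2, q3⟩ := (h1.and (g1.and g2)).exists
  rw [ev_mulL] at q1
  rcases mul_eq_zero.1 q1 with h | h
  · exact q2 h
  · exact q3 h

end Pool.Agent.UnivT
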