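import Pool.Agent.helper36.UT.Spec

set_option autoImplicit false

open Filter Polynomial FirstOrder FirstOrder.Language

namespace Pool.Agent.UnivT

theorem PPL_main (hLGD : LGD_stmt) (hLSU : LSU_stmt) (hMNE : MNE_stmt) (hEPF : EPF_stmt) (hPSP : PSP_stmt) (hEPV : EPV_stmt)
    (hSHR : SHR_stmt) (k : ℕ) : ∀ (n : ℕ) (q : ℚ) (l : List (ℚ × (ℕ → ℤ))) (f : ℕ → ℤ), l.length ≤ n → Std k q l f →
      (∀ᶠ H : ℕ in atTop, 0 ≤ f H) → Lev (k + 1) fun H => pop (f H) := by
  have hG1 := hLGD (k + 1)
  have hG := hLGD k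
  intro n
  induction n with
  | zero =>
    intro q l f hn hS h0
    have hl : l = [] := List.length_eq_zero_iff.1 (Nat.le_zero.1 hn)
    subst hl
    have h1 := hS.2.2
    obtain ⟨H0, hH0⟩ := h1.exists
    have h2 : ∀ᶠ H : ℕ in atTop, pop (f H0) = pop (f H) := by
      filter_upwards [h1] with H hH
      have h3 : (f H0 : ℚ) = f H := by rw [hH0, hH, ev_nil, ev_nil]
      have h4 : f H0 = f H := by exact_mod_cast h3
      rw [h4]
    exact hG1.2.2.1 _ _ (hG1.1 (pop (f H0))) h2
  | succ n ih =>
    intro q l f hn hS h0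
    by_cases hl : l = []
    · exact ih q l f (by rw [hl]; exact Nat.zero_le _) hS h0
    · obtain ⟨x, hx, C, hC⟩ := hMNE k l hl (fun y hy => (hS.1 y hy).1)
      obtain ⟨s, C1, hEs, hs⟩ := hEPF k q l f hS
      obtain ⟨E, hE⟩ : ∃ E : ℕ → ℤ, E = fun H => x.2 H - (C1 - C) := ⟨_, rfl⟩
      have hEL : Lev k E := by
        rw [hE]
        exact hG.2.1 _ _ (hS.1 x hx).1 (hG.1 (C1 - C))
      have hEt : Tendsto E atTop atTop := by
        rw [hE]
        have h1 := (hS.1 x hx).2.2
        rw [tendsto_atTop] at h1 ⊢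
        intro b
        filter_upwards [h1 (b + (C1 - C))] with H hH
        linarith
      obtain ⟨q', l', hS', hle, hlt⟩ := hSHR k q l f E hS hEL hEt
      have hlt' : l'.length < l.length := by
        apply hlt
        refine ⟨x, hx, ?_⟩
        intro ht
        have h1 : (fun H => x.2 H - E H) = fun _ : ℕ => C1 - C := by
          funext H
          rw [hE]
          ring
        rw [h1, tendsto_atTop] at ht
        obtain ⟨H, hH⟩ := (ht (C1 - C + 1)).exists
        linarith
      have hhigh := ih q' l' _ (by omega) hS' (by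
        filter_upwards [h0] with H hH
        exact Int.ediv_nonneg hH (by positivity))
      have hlow := hLSU k _ (hEPV k s E hEs hEL hEt).2
      have hadd : Lev (k + 1) fun H => cnt s (E H).toNat + pop (f H / 2 ^ (E H).toNat) := by
        have h1 := hG1.2.1 _ _ hlow (hG1.2.1 _ _ (hG1.1 0) hhigh)
        have e : (fun H => cnt s (E H).toNat + pop (f H / 2 ^ (E H).toNat)) =
            fun H => cnt s (E H).toNat - (0 - pop (f H / 2 ^ (E H).toNat)) := by
          funext H
          ring
        rw [e]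
        exact h1
      apply hG1.2.2.1 _ _ hadd
      have hb := hs E (by
        intro y hy
        filter_upwards [hC y hy] with H hH
        rw [hE]
        show x.2 H - (C1 - C) + C1 ≤ y.2 H
        linarith)
      filter_upwards [h0, hb] with H hH1 hH2
      rw [hPSP (f H) (E H).toNat hH1]
      apply congrArg (fun t => t + pop (f H / 2 ^ (E H).toNat))
      unfold cnt
      apply Finset.sum_congr rfl
      intro i hi
      rw [Finset.mem_range] at hi
      have h9 : (f H).testBit i = s i := hH2 i (by omega)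
      show (if s i = true then (1 : ℤ) else 0) = if (f H).testBit i = true then 1 else 0
      rw [h9]

theorem PPL (hLGD : LGD_stmt) (hLSU : LSU_stmt) (hAFF : AFF_stmt) (hSTD : STD_stmt) (hMNE : MNE_stmt) (hEPF : EPF_stmt)
    (hPSP : PSP_stmt) (hEPV : EPV_stmt) (hSHR : SHR_stmt) : PPL_stmt := by
  intro k f hf
  have hG1 := hLGD (k + 1)
  rcases hG1.2.2.2 f hf with ⟨c, hc⟩ | ht | ht
  · apply hG1.2.2.1 _ _ (hG1.1 (pop c))
    filter_upwards [hc] with H hH
    rw [hH]
  · obtain ⟨q, l, hS⟩ := hSTD k f hf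
    exact PPL_main hLGD hLSU hMNE hEPF hPSP hEPV hSHR k l.length q l f le_rfl hS (ht.eventually_ge_atTop 0)
  · have hneg : Lev (k + 1) fun H => 0 - f H := hG1.2.1 _ _ (hG1.1 0) hf
    obtain ⟨q, l, hS⟩ := hSTD k _ hneg
    have h1 := PPL_main hLGD hLSU hMNE hEPF hPSP hEPV hSHR k l.length q l _ le_rfl hS (by
      filter_upwards [ht.eventually_le_atBot 0] with H hH
      linarith)
    have e : (fun H => pop (0 - f H)) = fun H => pop (f H) := by
      funext H
      unfold pop
      rw [zero_sub, Int.natAbs_neg]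
    rw [e] at h1
    exact h1

end Pool.Agent.UnivT
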